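import Mathlib

/-!
# A Hadamard matrix of order 32 whose values `C(H, r)` are not all equal

`A` is the Sylvester matrix of order 16; `B` is the matrix obtained from `A` by negating the `4 × 4`
submatrix in the rows `0, 1, 2, 3` and the columns `0, 4, 8, 12`, and then exchanging the rows `0`
and `4`.  The matrix `H = (A B; A -B)` is a Hadamard matrix of order 32, and
`C(H, 0) ≤ 166 < 168 ≤ C(H, 1)`.

For `b = (c, d)` put `P = A c`, `Q = B d`.  Then `∑ |H b| = ∑ (|P + Q| + |P - Q|)`.  The entries of `P`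
are congruent modulo 4, and so are those of `Q`, and `∑ P² = ∑ Q² = 256`.  This gives
`∑ |H b| ≤ 168`, and if the deleted row is the first one, then `C = 168` is possible only if
`|P 0| = |Q 0| = 4` and for every `i ≠ 0` exactly one of `P i`, `Q i` is zero, all entries being at
most 8 in absolute value.  A check of all `c` (the zeros of `P` avoid a linear hyperplane of `𝔽₂⁴`) and
of all `d` (the nonzero entries of `Q` never avoid a linear hyperplane minus `0`) excludes this.
-/

set_option autoImplicit false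
set_option maxRecDepth 100000

namespace Pool.Agent.Results.MP_ba6bee_co.OrderThirtyTwo

open Finset Matrix

/-- `H` is a real Hadamard matrix of order `n` -/
structure IsHadamard {n : ℕ} (H : Matrix (Fin n) (Fin n) ℤ) : Prop where
  entries : ∀ i j, H i j = 1 ∨ H i j = -1
  orth : H * Hᵀ = (n : ℤ) • (1 : Matrix (Fin n) (Fin n) ℤ)

/-- `C(H, r)`: the maximum over the sign vectors `a`, indexed by the rows different from `r`, of
`∑_j |∑_{i ≠ r} H_ij a_i|` -/
noncomputable def C {n : ℕ} (H : Matrix (Fin n) (Fin n) ℤ) (r : Fin n) : ℤ :=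
  univ.sup' univ_nonempty fun a : {i : Fin n // i ≠ r} → ℤˣ =>
    ∑ j, |∑ i : {i : Fin n // i ≠ r}, H i j * (a i : ℤ)|

/-! ### The matrices -/

/-- the parity of the number of ones among the last four binary digits -/
def par (n : ℕ) : Bool := xor (xor (n.testBit 0) (n.testBit 1)) (xor (n.testBit 2) (n.testBit 3))

/-- the Sylvester matrix of order 16 (`true` stands for `1` and `false` for `-1`) -/
def fA (i j : Fin 16) : Bool := !par (Nat.land i j)

/-- the matrix `B` (`true` stands for `1` and `false` for `-1`) -/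
def fB (i j : Fin 16) : Bool :=
  let r : Fin 16 := Equiv.swap 0 4 i
  xor (fA r j) (decide (r < 4) && decide ((j : ℕ) % 4 = 0))

/-- the sign matrix of a Boolean matrix -/
def sgn (f : Fin 16 → Fin 16 → Bool) : Matrix (Fin 16) (Fin 16) ℤ :=
  fun i j => if f i j then 1 else -1

/-! ### The finite check -/

/-- packing to base 256 -/
def D {k : ℕ} (n : Fin k → ℕ) : ℕ := ∑ i, n i * 256 ^ (i : ℕ)

/-- the bit mask of the digits different from 8 -/
def mu : ℕ → ℕ → ℕ
  | 0, _ => 0
  | k + 1, X => cond (Nat.beq (X % 256) 8) 0 1 + 2 * mu k (X / 256)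

/-- all digits are between 4 and 12 -/
def small : ℕ → ℕ → Bool
  | 0, _ => true
  | k + 1, X => cond (Nat.ble 4 (X % 256)) (cond (Nat.ble (X % 256) 12) (small k (X / 256)) false) false

/-- the columns of `A`, packed to base 256, except the first one -/
def LA : List (ℕ × ℕ) :=
  [(0x10001000100010001000100010001, 0x1000100010001000100010001000100),
   (0x101000001010000010100000101, 0x1010000010100000101000001010000),
   (0x1000001010000010100000101000001, 0x10100000101000001010000010100),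
   (0x10101010000000001010101, 0x1010101000000000101010100000000),
   (0x1000100000100010100010000010001, 0x10001010001000001000101000100),
   (0x1010000000001010101000000000101, 0x101010100000000010101010000),
   (0x10100010000010001010001000001, 0x1000001000101000100000100010100),
   (0x101010101010101, 0x1010101010101010000000000000000),
   (0x1000100010001000001000100010001, 0x10001000100010100010001000100),
   (0x1010000010100000000010100000101, 0x101000001010101000001010000),
   (0x10100000101000100000101000001, 0x1000001010000010001010000010100),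
   (0x1010101000000000000000001010101, 0x10101010101010100000000),
   (0x10001010001000100010000010001, 0x1000100000100010001000101000100),
   (0x101010100000101000000000101, 0x1010000000001010000010101010000),
   (0x1000001000101000001010001000001, 0x10100010000010100000100010100)]

/-- the columns of `B`, packed to base 256, except the first one -/
def LB : List (ℕ × ℕ) :=
  [(0x10001000100010001000100010001, 0x1000100010001000100010001000100),
   (0x101000001010000010100000101, 0x1010000010100000101000001010000),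
   (0x1000001010000010100000101000001, 0x10100000101000001010000010100),
   (0x10101010000000000000000, 0x1010101000000000101010101010101),
   (0x1000100000100010100010100010000, 0x10001010001000001000001000101),
   (0x1010000000001010101000100000100, 0x101010100000000010001010001),
   (0x10100010000010001010101000000, 0x1000001000101000100000000010101),
   (0x101010000000001, 0x1010101010101010000000101010100),
   (0x1000100010001000001000100010001, 0x10001000100010100010001000100),
   (0x1010000010100000000010100000101, 0x101000001010101000001010000),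
   (0x10100000101000100000101000001, 0x1000001010000010001010000010100),
   (0x1010101000000000000000000000000, 0x10101010101010101010101),
   (0x10001010001000100010100010000, 0x1000100000100010001000001000101),
   (0x101010100000101000100000100, 0x1010000000001010000010001010001),
   (0x1000001000101000001010101000000, 0x10100010000010100000000010101)]

/-- the linear hyperplanes of `𝔽₂⁴` -/
def masks : List ℕ := [21845, 13107, 39321, 3855, 42405, 50115, 26985, 255, 43605, 52275, 26265, 61455, 23205, 15555, 38505]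

/-- the test for `A` -/
def leafA (X : ℕ) : Bool :=
  cond (Nat.beq (X % 256) 6 || Nat.beq (X % 256) 10)
    (masks.any fun M => Nat.beq (Nat.land (mu 16 X) M) M) true

/-- the test for `B` -/
def leafB (X : ℕ) : Bool :=
  cond (Nat.beq (X % 256) 6 || Nat.beq (X % 256) 10)
    (cond (small 16 X) (masks.all fun M => Nat.blt 0 (Nat.land (mu 16 X) (M - 1))) true) true

/-- run through all sums of choices -/
def go (f : ℕ → Bool) : List (ℕ × ℕ) → ℕ → Bool
  | [], X => f X
  | c :: l, X => cond (go f l (X + c.1)) (go f l (X + c.2)) false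

set_option maxHeartbeats 0 in
theorem checkA : go leafA LA 0x1010101010101010101010101010101 = true := by decide +kernel

set_option maxHeartbeats 0 in
theorem checkB : go leafB LB 0x1010101010101010101010000000001 = true := by decide +kernel

theorem go_spec (f : ℕ → Bool) : ∀ (n : ℕ) (a : Fin n → ℕ × ℕ) (X : ℕ),
    go f (List.ofFn a) X = true → ∀ s : Fin n → Bool,
      f (X + ∑ j, if s j then (a j).1 else (a j).2) = true
  | 0, a, X, h, s => by simpa [go] using h
  | n + 1, a, X, h, s => by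
      rw [List.ofFn_succ] at h
      have h' : go f (List.ofFn fun i => a i.succ) (X + (a 0).1) = true ∧
          go f (List.ofFn fun i => a i.succ) (X + (a 0).2) = true := by
        simp only [go] at h
        cases h1 : go f (List.ofFn fun i => a i.succ) (X + (a 0).1)
        · rw [h1] at h; simp at h
        · rw [h1] at h; exact ⟨rfl, h⟩
      rw [Fin.sum_univ_succ, ← add_assoc]
      cases hs : s 0
      · have := go_spec f n _ _ h'.2 (fun i => s i.succ)
        simpa [hs] using this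
      · have := go_spec f n _ _ h'.1 (fun i => s i.succ)
        simpa [hs] using this

theorem D_succ {k : ℕ} (n : Fin (k + 1) → ℕ) : D n = n 0 + 256 * D (fun i => n i.succ) := by
  simp only [D, Fin.sum_univ_succ, Fin.val_zero, pow_zero, mul_one, Fin.val_succ, pow_succ,
    Finset.mul_sum]
  congr 1
  refine Finset.sum_congr rfl fun i _ => ?_
  ring

theorem D_mod {k : ℕ} (n : Fin (k + 1) → ℕ) (h : n 0 < 256) : D n % 256 = n 0 := by
  rw [D_succ]; omega

theorem D_div {k : ℕ} (n : Fin (k + 1) → ℕ) (h : n 0 < 256) :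
    D n / 256 = D (fun i => n i.succ) := by
  rw [D_succ]; omega

theorem mu_spec : ∀ (k : ℕ) (n : Fin k → ℕ), (∀ i, n i < 256) → ∀ i : Fin k,
    (mu k (D n)).testBit i = decide (n i ≠ 8)
  | 0, _, _, i => i.elim0
  | k + 1, n, hn, i => by
      have h1 : mu (k + 1) (D n) =
          cond (Nat.beq (n 0) 8) 0 1 + 2 * mu k (D fun i => n i.succ) := by
        rw [mu, D_mod n (hn 0), D_div n (hn 0)]
      have hb : cond (Nat.beq (n 0) 8) 0 1 = (if n 0 = 8 then 0 else 1) := by
        by_cases h : n 0 = 8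
        · rw [h]; rfl
        · rw [if_neg h]
          have : Nat.beq (n 0) 8 = false := by
            rw [Bool.eq_false_iff]; intro h2; exact h (Nat.eq_of_beq_eq_true h2)
          rw [this]; rfl
      rw [h1, hb]
      refine Fin.cases ?_ (fun i => ?_) i
      · rw [Fin.val_zero, Nat.testBit_zero]
        by_cases h : n 0 = 8
        · simp [h]
        · simp only [h, if_false, ne_eq, not_false_eq_true, decide_true, decide_eq_true_eq]
          omega
      · rw [Fin.val_succ, Nat.testBit_succ]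
        have h2 : ((if n 0 = 8 then 0 else 1) + 2 * mu k (D fun i => n i.succ)) / 2 =
            mu k (D fun i => n i.succ) := by
          split_ifs <;> omega
        rw [h2, mu_spec k (fun i => n i.succ) (fun i => hn _) i]

theorem small_spec : ∀ (k : ℕ) (n : Fin k → ℕ), (∀ i, n i < 256) → (∀ i, 4 ≤ n i ∧ n i ≤ 12) →
    small k (D n) = true
  | 0, _, _, _ => rfl
  | k + 1, n, hn, h => by
      rw [small, D_mod n (hn 0), D_div n (hn 0), small_spec k _ (fun i => hn _) (fun i => h _)]
      have h1 : Nat.ble 4 (n 0) = true := Nat.ble_eq_true_of_le (h 0).1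
      have h2 : Nat.ble (n 0) 12 = true := Nat.ble_eq_true_of_le (h 0).2
      rw [h1, h2]; rfl

/-! ### Sign vectors -/

/-- `P = M c` -/
def P (f : Fin 16 → Fin 16 → Bool) (c : Fin 16 → ℤˣ) (i : Fin 16) : ℤ :=
  ∑ j, sgn f i j * (c j : ℤ)

/-- the number of agreements of row `i` with `c` -/
def N (f : Fin 16 → Fin 16 → Bool) (c : Fin 16 → ℤˣ) (i : Fin 16) : ℕ :=
  ∑ j, if f i j = decide (c j = 1) then 1 else 0

theorem N_le (f : Fin 16 → Fin 16 → Bool) (c : Fin 16 → ℤˣ) (i : Fin 16) : N f c i ≤ 16 := by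
  unfold N
  calc (∑ j, if f i j = decide (c j = 1) then 1 else 0) ≤ ∑ _j : Fin 16, 1 := by
        refine Finset.sum_le_sum fun j _ => ?_
        split_ifs <;> omega
    _ = 16 := by simp

theorem P_eq (f : Fin 16 → Fin 16 → Bool) (c : Fin 16 → ℤˣ) (i : Fin 16) :
    P f c i = 2 * (N f c i : ℤ) - 16 := by
  have h16 : (16 : ℤ) = ∑ _j : Fin 16, 1 := by simp
  unfold P N
  rw [h16]
  push_cast
  rw [Finset.mul_sum, ← Finset.sum_sub_distrib]
  refine Finset.sum_congr rfl fun j _ => ?_
  unfold sgn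
  rcases Int.units_eq_one_or (c j) with h | h
  · rw [h]
    cases f i j <;> simp
  · rw [h]
    have h1 : decide ((-1 : ℤˣ) = 1) = false := by decide
    rw [h1]
    cases f i j <;> simp

theorem P_neg (f : Fin 16 → Fin 16 → Bool) (c : Fin 16 → ℤˣ) (i : Fin 16) :
    P f (fun j => - c j) i = - P f c i := by
  unfold P
  rw [← Finset.sum_neg_distrib]
  refine Finset.sum_congr rfl fun j _ => ?_
  rw [Units.val_neg]; ring

/-- the columns, packed -/
def cols (f : Fin 16 → Fin 16 → Bool) (j : Fin 16) : ℕ × ℕ :=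
  (D (fun i => if f i j then 1 else 0), D (fun i => if f i j then 0 else 1))

theorem packed (f : Fin 16 → Fin 16 → Bool) (c : Fin 16 → ℤˣ) :
    D (N f c) = ∑ j, if decide (c j = 1) then (cols f j).1 else (cols f j).2 := by
  have h : ∀ j, (if decide (c j = 1) then (cols f j).1 else (cols f j).2) =
      ∑ i : Fin 16, (if f i j = decide (c j = 1) then 1 else 0) * 256 ^ (i : ℕ) := by
    intro j
    cases hc : decide (c j = 1)
    · simp only [cols, D]
      refine Finset.sum_congr rfl fun i _ => ?_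
      cases f i j <;> simp
    · simp only [cols, D]
      refine Finset.sum_congr rfl fun i _ => ?_
      cases f i j <;> simp
  rw [Finset.sum_congr rfl fun j _ => h j, Finset.sum_comm]
  unfold D N
  refine Finset.sum_congr rfl fun i _ => ?_
  rw [Finset.sum_mul]

theorem colsA : (List.ofFn fun j : Fin 15 => cols fA j.succ) = LA ∧
    (cols fA 0).1 = 0x1010101010101010101010101010101 := by
  decide +kernel

theorem colsB : (List.ofFn fun j : Fin 15 => cols fB j.succ) = LB ∧
    (cols fB 0).1 = 0x1010101010101010101010000000001 := by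
  decide +kernel

theorem leaf (f : Fin 16 → Fin 16 → Bool) (g : ℕ → Bool)
    (h : go g (List.ofFn fun j : Fin 15 => cols f j.succ) (cols f 0).1 = true)
    (c : Fin 16 → ℤˣ) (hc : c 0 = 1) : g (D (N f c)) = true := by
  have := go_spec g 15 _ _ h (fun j => decide (c j.succ = 1))
  rw [packed, Fin.sum_univ_succ]
  rw [hc]
  simpa using this

theorem n0 (f : Fin 16 → Fin 16 → Bool) (c : Fin 16 → ℤˣ) (h : |P f c 0| = 4) :
    N f c 0 = 6 ∨ N f c 0 = 10 := by
  rw [P_eq] at h
  rcases abs_eq (by norm_num : (0 : ℤ) ≤ 4) |>.1 h with h | h <;> omega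

theorem claimA1 (c : Fin 16 → ℤˣ) (hc : c 0 = 1) (h : |P fA c 0| = 4) :
    ∃ M ∈ masks, ∀ i : Fin 16, M.testBit i = true → P fA c i ≠ 0 := by
  have h1 := leaf fA leafA (by rw [colsA.1, colsA.2]; exact checkA) c hc
  have hlt : ∀ i, N fA c i < 256 := fun i => lt_of_le_of_lt (N_le _ _ i) (by norm_num)
  have h0 := n0 fA c h
  rw [leafA, D_mod _ (hlt 0)] at h1
  have h2 : (Nat.beq (N fA c 0) 6 || Nat.beq (N fA c 0) 10) = true := by
    rcases h0 with h0 | h0 <;> rw [h0] <;> rfl
  rw [h2, cond_true, List.any_eq_true] at h1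
  obtain ⟨M, hM, h3⟩ := h1
  refine ⟨M, hM, fun i hi => ?_⟩
  have h4 : Nat.land (mu 16 (D (N fA c))) M = M := Nat.eq_of_beq_eq_true h3
  have h5 : (Nat.land (mu 16 (D (N fA c))) M).testBit i = M.testBit i := by rw [h4]
  have h6 : (mu 16 (D (N fA c)) &&& M).testBit i = M.testBit i := h5
  rw [Nat.testBit_land, hi, Bool.and_true, mu_spec 16 _ hlt i] at h6
  have h7 : N fA c i ≠ 8 := by simpa using h6
  rw [P_eq]
  omega

theorem claimB1 (d : Fin 16 → ℤˣ) (hd : d 0 = 1) (h : |P fB d 0| = 4)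
    (hs : ∀ i, |P fB d i| ≤ 8) : ∀ M ∈ masks,
      ∃ i : Fin 16, (M - 1).testBit i = true ∧ P fB d i ≠ 0 := by
  have h1 := leaf fB leafB (by rw [colsB.1, colsB.2]; exact checkB) d hd
  have hlt : ∀ i, N fB d i < 256 := fun i => lt_of_le_of_lt (N_le _ _ i) (by norm_num)
  have h0 := n0 fB d h
  have hsm : small 16 (D (N fB d)) = true := by
    refine small_spec 16 _ hlt fun i => ?_
    have := hs i
    rw [P_eq, abs_le] at this
    omega
  rw [leafB, D_mod _ (hlt 0)] at h1
  have h2 : (Nat.beq (N fB d 0) 6 || Nat.beq (N fB d 0) 10) = true := by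
    rcases h0 with h0 | h0 <;> rw [h0] <;> rfl
  rw [h2, cond_true, hsm, cond_true, List.all_eq_true] at h1
  intro M hM
  have h3 := h1 M hM
  by_contra hcon
  push Not at hcon
  have hM16 : M - 1 < 2 ^ 16 := by
    have : ∀ M ∈ masks, M - 1 < 2 ^ 16 := by decide
    exact this M hM
  have h4 : (mu 16 (D (N fB d)) &&& (M - 1)) = 0 := by
    apply Nat.eq_of_testBit_eq
    intro t
    rw [Nat.testBit_land, Nat.zero_testBit]
    by_cases ht : t < 16
    · have h5 := mu_spec 16 _ hlt ⟨t, ht⟩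
      have h5' : (mu 16 (D (N fB d))).testBit t = decide (N fB d ⟨t, ht⟩ ≠ 8) := h5
      rw [h5']
      cases h6 : (M - 1).testBit t
      · simp
      · have h7 := hcon ⟨t, ht⟩ h6
        rw [P_eq] at h7
        have h8 : N fB d ⟨t, ht⟩ = 8 := by omega
        simp [h8]
    · rw [Nat.testBit_lt_two_pow (lt_of_lt_of_le hM16 (Nat.pow_le_pow_right (by norm_num)
        (by omega))), Bool.and_false]
  have h5 : Nat.land (mu 16 (D (N fB d))) (M - 1) = 0 := h4
  rw [h5] at h3
  exact absurd h3 (by decide)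

theorem claimA (c : Fin 16 → ℤˣ) (h : |P fA c 0| = 4) :
    ∃ M ∈ masks, ∀ i : Fin 16, M.testBit i = true → P fA c i ≠ 0 := by
  rcases Int.units_eq_one_or (c 0) with hc | hc
  · exact claimA1 c hc h
  · obtain ⟨M, hM, h1⟩ := claimA1 (fun j => - c j) (by rw [hc]; rfl) (by rw [P_neg, abs_neg]; exact h)
    refine ⟨M, hM, fun i hi h2 => h1 i hi ?_⟩
    rw [P_neg, h2, neg_zero]

theorem claimB (d : Fin 16 → ℤˣ) (h : |P fB d 0| = 4) (hs : ∀ i, |P fB d i| ≤ 8) :
    ∀ M ∈ masks, ∃ i : Fin 16, (M - 1).testBit i = true ∧ P fB d i ≠ 0 := by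
  rcases Int.units_eq_one_or (d 0) with hd | hd
  · exact claimB1 d hd h hs
  · intro M hM
    obtain ⟨i, hi, h1⟩ := claimB1 (fun j => - d j) (by rw [hd]; rfl)
      (by rw [P_neg, abs_neg]; exact h) (fun i => by rw [P_neg, abs_neg]; exact hs i) M hM
    refine ⟨i, hi, fun h2 => h1 ?_⟩
    rw [P_neg, h2, neg_zero]

theorem masks_odd : ∀ M ∈ masks, ∀ i : Fin 16, (M - 1).testBit i = true →
    i ≠ 0 ∧ M.testBit i = true := by
  decide +kernel

/-- the bad configuration does not occur -/
theorem nobad (c d : Fin 16 → ℤˣ) (h1 : |P fA c 0| = 4) (h2 : |P fB d 0| = 4)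
    (h3 : ∀ i, |P fB d i| ≤ 8) (h4 : ∀ i, i ≠ 0 → P fA c i ≠ 0 → P fB d i = 0) : False := by
  obtain ⟨M, hM, hA⟩ := claimA c h1
  obtain ⟨i, hi, hB⟩ := claimB d h2 h3 M hM
  obtain ⟨h5, h6⟩ := masks_odd M hM i hi
  exact hB (h4 i h5 (hA i h6))

/-! ### The second moment and the congruence -/

theorem sq_sum (f : Fin 16 → Fin 16 → Bool)
    (hf : ∀ j k : Fin 16, ∑ i, sgn f i j * sgn f i k = if j = k then 16 else 0)
    (c : Fin 16 → ℤˣ) : ∑ i, P f c i ^ 2 = 256 := by
  calc ∑ i, P f c i ^ 2 = ∑ i, ∑ j, ∑ k, (sgn f i j * sgn f i k) * ((c j : ℤ) * (c k : ℤ)) := by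
        refine Finset.sum_congr rfl fun i _ => ?_
        rw [sq, P, Finset.sum_mul_sum]
        refine Finset.sum_congr rfl fun j _ => Finset.sum_congr rfl fun k _ => ?_
        ring
    _ = ∑ j, ∑ k, (∑ i, sgn f i j * sgn f i k) * ((c j : ℤ) * (c k : ℤ)) := by
        rw [Finset.sum_comm]
        refine Finset.sum_congr rfl fun j _ => ?_
        rw [Finset.sum_comm]
        refine Finset.sum_congr rfl fun k _ => ?_
        rw [Finset.sum_mul]
    _ = ∑ j : Fin 16, 16 := by
        refine Finset.sum_congr rfl fun j _ => ?_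
        rw [Finset.sum_eq_single j]
        · rw [hf, if_pos rfl]
          rcases Int.units_eq_one_or (c j) with h | h <;> rw [h] <;> simp
        · intro k _ hk
          rw [hf, if_neg (Ne.symm hk), zero_mul]
        · simp
    _ = 256 := by simp

theorem mod_four (f : Fin 16 → Fin 16 → Bool)
    (hf : ∀ i k : Fin 16, (4 : ℤ) ∣ ∑ j, (sgn f i j + sgn f k j))
    (c : Fin 16 → ℤˣ) (i k : Fin 16) : (4 : ℤ) ∣ P f c i + P f c k := by
  have h : P f c i + P f c k = ∑ j, (sgn f i j + sgn f k j) +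
      ∑ j, (sgn f i j + sgn f k j) * ((c j : ℤ) - 1) := by
    unfold P
    rw [← Finset.sum_add_distrib, ← Finset.sum_add_distrib]
    refine Finset.sum_congr rfl fun j _ => ?_
    ring
  rw [h]
  refine dvd_add (hf i k) (Finset.dvd_sum fun j _ => ?_)
  have h1 : (2 : ℤ) ∣ sgn f i j + sgn f k j := by
    unfold sgn
    split_ifs <;> norm_num
  have h2 : (2 : ℤ) ∣ (c j : ℤ) - 1 := by
    rcases Int.units_eq_one_or (c j) with h | h <;> rw [h] <;> norm_num
  have := mul_dvd_mul h1 h2
  norm_num at this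
  exact this

theorem orthA : ∀ j k : Fin 16, ∑ i, sgn fA i j * sgn fA i k = if j = k then 16 else 0 := by
  decide +kernel

theorem orthB : ∀ j k : Fin 16, ∑ i, sgn fB i j * sgn fB i k = if j = k then 16 else 0 := by
  decide +kernel

theorem orthA' : ∀ j k : Fin 16, ∑ i, sgn fA j i * sgn fA k i = if j = k then 16 else 0 := by
  decide +kernel

theorem orthB' : ∀ j k : Fin 16, ∑ i, sgn fB j i * sgn fB k i = if j = k then 16 else 0 := by
  decide +kernel

theorem fourA : ∀ i k : Fin 16, (4 : ℤ) ∣ ∑ j, (sgn fA i j + sgn fA k j) := by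
  decide +kernel

theorem fourB : ∀ i k : Fin 16, (4 : ℤ) ∣ ∑ j, (sgn fB i j + sgn fB k j) := by
  decide +kernel

/-! ### The inequality -/

theorem abs_add_abs_sub (x y : ℤ) : |x + y| + |x - y| = 2 * max |x| |y| := by
  rcases le_total |x| |y| with h | h
  · rw [max_eq_right h]
    rcases abs_cases x with ⟨h1, h2⟩ | ⟨h1, h2⟩ <;> rcases abs_cases y with ⟨h3, h4⟩ | ⟨h3, h4⟩ <;>
    rcases abs_cases (x + y) with ⟨h5, h6⟩ | ⟨h5, h6⟩ <;>
    rcases abs_cases (x - y) with ⟨h7, h8⟩ | ⟨h7, h8⟩ <;> omega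
  · rw [max_eq_left h]
    rcases abs_cases x with ⟨h1, h2⟩ | ⟨h1, h2⟩ <;> rcases abs_cases y with ⟨h3, h4⟩ | ⟨h3, h4⟩ <;>
    rcases abs_cases (x + y) with ⟨h5, h6⟩ | ⟨h5, h6⟩ <;>
    rcases abs_cases (x - y) with ⟨h7, h8⟩ | ⟨h7, h8⟩ <;> omega

/-- both divisible by 4 -/
theorem pAA (p q : ℤ) : 6 * (2 * max |4 * p| |4 * q|) ≤ (4 * p) ^ 2 + (4 * q) ^ 2 + 32 := by
  rw [abs_mul, abs_mul, ← sq_abs (4 * p), ← sq_abs (4 * q), abs_mul, abs_mul]
  have hp := abs_nonneg p
  have hq := abs_nonneg q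
  generalize |p| = a at *
  generalize |q| = b at *
  norm_num
  rcases le_total (4 * a) (4 * b) with h | h
  · rw [max_eq_right h]
    rcases le_or_gt b 1 with h1 | h1
    · nlinarith [mul_nonneg (sub_nonneg.2 h1) (by linarith : (0 : ℤ) ≤ 2 - b), sq_nonneg a]
    · nlinarith [mul_nonneg (by linarith : (0 : ℤ) ≤ b - 1) (by linarith : (0 : ℤ) ≤ b - 2),
        sq_nonneg a]
  · rw [max_eq_left h]
    rcases le_or_gt a 1 with h1 | h1
    · nlinarith [mul_nonneg (sub_nonneg.2 h1) (by linarith : (0 : ℤ) ≤ 2 - a), sq_nonneg b]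
    · nlinarith [mul_nonneg (by linarith : (0 : ℤ) ≤ a - 1) (by linarith : (0 : ℤ) ≤ a - 2),
        sq_nonneg b]

/-- equality -/
theorem pAA' (p q : ℤ) (h : 6 * (2 * max |4 * p| |4 * q|) = (4 * p) ^ 2 + (4 * q) ^ 2 + 32) :
    |4 * q| ≤ 8 ∧ (4 * p ≠ 0 → 4 * q = 0) := by
  rw [abs_mul, abs_mul, ← sq_abs (4 * p), ← sq_abs (4 * q), abs_mul, abs_mul] at h
  have hp := abs_nonneg p
  have hq := abs_nonneg q
  have key : |q| ≤ 2 ∧ (|p| = 0 ∨ |q| = 0) := by
    generalize |p| = a at *
    generalize |q| = b at *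
    norm_num at h
    rcases le_total (4 * a) (4 * b) with h' | h'
    · rw [max_eq_right h'] at h
      have h1 : (b - 1) * (b - 2) + a ^ 2 = 0 := by linarith
      have h2 : b = 1 ∨ b = 2 := by
        by_contra hcon
        push Not at hcon
        rcases lt_or_gt_of_ne hcon.1 with h3 | h3
        · nlinarith [sq_nonneg a]
        · have : 3 ≤ b := by omega
          nlinarith [sq_nonneg a]
      have h3 : a ^ 2 = 0 := by
        rcases h2 with h2 | h2 <;> rw [h2] at h1 <;> linarith
      refine ⟨by omega, Or.inl (by simpa using h3)⟩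
    · rw [max_eq_left h'] at h
      have h1 : (a - 1) * (a - 2) + b ^ 2 = 0 := by linarith
      have h2 : a = 1 ∨ a = 2 := by
        by_contra hcon
        push Not at hcon
        rcases lt_or_gt_of_ne hcon.1 with h3 | h3
        · nlinarith [sq_nonneg b]
        · have : 3 ≤ a := by omega
          nlinarith [sq_nonneg b]
      have h3 : b ^ 2 = 0 := by
        rcases h2 with h2 | h2 <;> rw [h2] at h1 <;> linarith
      have h4 : b = 0 := by simpa using h3
      refine ⟨by omega, Or.inr h4⟩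
  refine ⟨?_, fun h1 => ?_⟩
  · rw [abs_mul]
    have := key.1
    norm_num
    linarith
  · rcases key.2 with h2 | h2
    · rw [abs_eq_zero] at h2
      exact absurd (by rw [h2]; ring) h1
    · rw [abs_eq_zero] at h2
      rw [h2]; ring

/-- one divisible by 4, the other one congruent to 2 -/
theorem pAB (p v : ℤ) (hv : ¬ (2 : ℤ) ∣ v) :
    24 * (2 * max |4 * p| |2 * v|) ≤ 4 * (4 * p) ^ 2 + 5 * (2 * v) ^ 2 + 108 := by
  rw [abs_mul, abs_mul, ← sq_abs (4 * p), ← sq_abs (2 * v), abs_mul, abs_mul]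
  have hp := abs_nonneg p
  have hq := abs_nonneg v
  have hv' : ¬ (2 : ℤ) ∣ |v| := by rwa [dvd_abs]
  generalize |p| = a at *
  generalize |v| = b at *
  norm_num
  have hb : b = 1 ∨ 3 ≤ b := by omega
  rcases le_total (4 * a) (2 * b) with h | h
  · rw [max_eq_right h]
    rcases hb with rfl | hb
    · have : a = 0 := by omega
      rw [this]; norm_num
    · nlinarith [mul_nonneg (by linarith : (0 : ℤ) ≤ b - 3) (by linarith : (0 : ℤ) ≤ 5 * b - 9),
        sq_nonneg a]
  · rw [max_eq_left h]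
    have hb1 : 1 ≤ b := by omega
    rcases le_or_gt a 1 with h1 | h1
    · nlinarith [mul_nonneg (sub_nonneg.2 h1) (by linarith : (0 : ℤ) ≤ 2 - a), sq_nonneg (b - 1)]
    · nlinarith [mul_nonneg (by linarith : (0 : ℤ) ≤ a - 1) (by linarith : (0 : ℤ) ≤ a - 2),
        sq_nonneg (b - 1)]

/-- both congruent to 2 -/
theorem pBB (u v : ℤ) (hu : ¬ (2 : ℤ) ∣ u) (hv : ¬ (2 : ℤ) ∣ v) :
    4 * (2 * max |2 * u| |2 * v|) ≤ (2 * u) ^ 2 + (2 * v) ^ 2 + 8 := by
  rw [abs_mul, abs_mul, ← sq_abs (2 * u), ← sq_abs (2 * v), abs_mul, abs_mul]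
  have hp := abs_nonneg u
  have hq := abs_nonneg v
  have hv' : ¬ (2 : ℤ) ∣ |v| := by rwa [dvd_abs]
  have hu' : ¬ (2 : ℤ) ∣ |u| := by rwa [dvd_abs]
  generalize |u| = a at *
  generalize |v| = b at *
  norm_num
  have ha : a = 1 ∨ 3 ≤ a := by omega
  have hb : b = 1 ∨ 3 ≤ b := by omega
  have ha1 : 1 ≤ a := by omega
  have hb1 : 1 ≤ b := by omega
  rcases le_total (2 * a) (2 * b) with h | h
  · rw [max_eq_right h]
    rcases hb with rfl | hb
    · nlinarith [sq_nonneg (a - 1)]
    · nlinarith [mul_nonneg (by linarith : (0 : ℤ) ≤ b - 3) (by linarith : (0 : ℤ) ≤ b - 1),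
        sq_nonneg (a - 1)]
  · rw [max_eq_left h]
    rcases ha with rfl | ha
    · nlinarith [sq_nonneg (b - 1)]
    · nlinarith [mul_nonneg (by linarith : (0 : ℤ) ≤ a - 3) (by linarith : (0 : ℤ) ≤ a - 1),
        sq_nonneg (b - 1)]

/-- a sequence congruent modulo 4 -/
theorem dich (P : Fin 16 → ℤ) (h : ∀ i k, (4 : ℤ) ∣ P i + P k) :
    (∃ p : Fin 16 → ℤ, ∀ i, P i = 4 * p i) ∨
      ∃ u : Fin 16 → ℤ, ∀ i, P i = 2 * u i ∧ ¬ (2 : ℤ) ∣ u i := by
  by_cases h0 : (4 : ℤ) ∣ P 0
  · left
    have h1 : ∀ i, (4 : ℤ) ∣ P i := fun i => (dvd_add_right h0).1 (h 0 i)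
    choose p hp using h1
    exact ⟨p, hp⟩
  · right
    have h1 : ∀ i, (2 : ℤ) ∣ P i := by
      intro i
      have := h i i
      omega
    choose u hu using h1
    refine ⟨u, fun i => ⟨hu i, fun h2 => h0 ?_⟩⟩
    have h3 := h 0 i
    have h4 := hu i
    omega

theorem main_ineq (P Q : Fin 16 → ℤ) (hP : ∑ i, P i ^ 2 = 256) (hQ : ∑ i, Q i ^ 2 = 256)
    (hP4 : ∀ i k, (4 : ℤ) ∣ P i + P k) (hQ4 : ∀ i k, (4 : ℤ) ∣ Q i + Q k)
    (hbad : |P 0| = 4 → |Q 0| = 4 → (∀ i, |Q i| ≤ 8) → (∀ i, i ≠ 0 → P i ≠ 0 → Q i = 0) →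
      False) :
    ∑ i, (|P i + Q i| + |P i - Q i|) - |P 0 + Q 0| ≤ 166 := by
  have hm : ∀ i, |P i + Q i| + |P i - Q i| = 2 * max |P i| |Q i| := fun i => abs_add_abs_sub _ _
  simp only [hm]
  rcases dich P hP4 with ⟨p, hp⟩ | ⟨u, hu⟩
  · rcases dich Q hQ4 with ⟨q, hq⟩ | ⟨v, hv⟩
    · -- both divisible by 4
      have hle : ∀ i, 6 * (2 * max |P i| |Q i|) ≤ P i ^ 2 + Q i ^ 2 + 32 := by
        intro i; rw [hp i, hq i]; exact pAA _ _
      have hsum : 6 * ∑ i, 2 * max |P i| |Q i| ≤ 1024 := by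
        calc 6 * ∑ i, 2 * max |P i| |Q i| = ∑ i, 6 * (2 * max |P i| |Q i|) := by rw [Finset.mul_sum]
          _ ≤ ∑ i, (P i ^ 2 + Q i ^ 2 + 32) := Finset.sum_le_sum fun i _ => hle i
          _ = 1024 := by
            rw [Finset.sum_add_distrib, Finset.sum_add_distrib, hP, hQ]; simp
      have h8 : (8 : ℤ) ∣ ∑ i, 2 * max |P i| |Q i| := by
        refine Finset.dvd_sum fun i _ => ?_
        rw [hp i, hq i, abs_mul, abs_mul]
        refine ⟨max |p i| |q i|, ?_⟩
        rw [show (|(4 : ℤ)|) = 4 by norm_num, ← mul_max_of_nonneg _ _ (by norm_num : (0 : ℤ) ≤ 4)]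
        ring
      obtain ⟨S, hS⟩ := h8
      rw [hS] at hsum ⊢
      have hS21 : S ≤ 21 := by omega
      by_cases hS' : S ≤ 20
      · have := abs_nonneg (P 0 + Q 0)
        omega
      · have hS1 : S = 21 := by omega
        by_cases h0 : P 0 + Q 0 = 0
        · exfalso
          -- the slacks
          have hsl : ∑ i, (P i ^ 2 + Q i ^ 2 + 32 - 6 * (2 * max |P i| |Q i|)) = 16 := by
            rw [Finset.sum_sub_distrib, ← Finset.mul_sum, hS, hS1, Finset.sum_add_distrib,
              Finset.sum_add_distrib, hP, hQ]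
            simp
          have hnn : ∀ i, 0 ≤ P i ^ 2 + Q i ^ 2 + 32 - 6 * (2 * max |P i| |Q i|) := fun i => by
            have := hle i; linarith
          have hQ0 : Q 0 = - P 0 := by linarith
          have e0 : P 0 ^ 2 + Q 0 ^ 2 + 32 - 6 * (2 * max |P 0| |Q 0|) =
              2 * |P 0| ^ 2 + 32 - 12 * |P 0| := by
            rw [hQ0, abs_neg, max_self, sq_abs]; ring
          have hp0 : |P 0| = 4 * |p 0| := by rw [hp 0, abs_mul]; norm_num
          have h16 : |p 0| = 1 ∨ 16 < P 0 ^ 2 + Q 0 ^ 2 + 32 - 6 * (2 * max |P 0| |Q 0|) := by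
            rw [e0, hp0]
            have := abs_nonneg (p 0)
            generalize |p 0| = a at *
            rcases (by omega : a = 0 ∨ a = 1 ∨ 2 ≤ a) with h | h | h
            · right; rw [h]; norm_num
            · left; exact h
            · right; nlinarith
          have hle0 : P 0 ^ 2 + Q 0 ^ 2 + 32 - 6 * (2 * max |P 0| |Q 0|) ≤ 16 := by
            rw [← hsl]
            exact Finset.single_le_sum (f := fun i =>
              P i ^ 2 + Q i ^ 2 + 32 - 6 * (2 * max |P i| |Q i|)) (fun i _ => hnn i)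
              (Finset.mem_univ 0)
          have hp1 : |p 0| = 1 := by
            rcases h16 with h | h
            · exact h
            · linarith
          have hP04 : |P 0| = 4 := by rw [hp0, hp1]; norm_num
          have hval : P 0 ^ 2 + Q 0 ^ 2 + 32 - 6 * (2 * max |P 0| |Q 0|) = 16 := by
            rw [e0, hP04]; norm_num
          have hrest : ∀ i, i ≠ 0 →
              P i ^ 2 + Q i ^ 2 + 32 - 6 * (2 * max |P i| |Q i|) = 0 := by
            have h1 : (P 0 ^ 2 + Q 0 ^ 2 + 32 - 6 * (2 * max |P 0| |Q 0|)) +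
                ∑ i ∈ Finset.univ.erase (0 : Fin 16),
                  (P i ^ 2 + Q i ^ 2 + 32 - 6 * (2 * max |P i| |Q i|)) =
                ∑ i, (P i ^ 2 + Q i ^ 2 + 32 - 6 * (2 * max |P i| |Q i|)) :=
              Finset.add_sum_erase Finset.univ (fun i =>
                P i ^ 2 + Q i ^ 2 + 32 - 6 * (2 * max |P i| |Q i|)) (Finset.mem_univ (0 : Fin 16))
            rw [hsl, hval] at h1
            have h2 : ∑ i ∈ Finset.univ.erase (0 : Fin 16),
                (P i ^ 2 + Q i ^ 2 + 32 - 6 * (2 * max |P i| |Q i|)) = 0 := by linarith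
            rw [Finset.sum_eq_zero_iff_of_nonneg (fun i _ => hnn i)] at h2
            intro i hi
            exact h2 i (Finset.mem_erase.2 ⟨hi, Finset.mem_univ _⟩)
          have hfin : ∀ i, i ≠ 0 → |Q i| ≤ 8 ∧ (P i ≠ 0 → Q i = 0) := by
            intro i hi
            have h1 := hrest i hi
            rw [hp i, hq i] at h1 ⊢
            exact pAA' _ _ (by linarith)
          refine hbad hP04 (by rw [hQ0, abs_neg]; exact hP04) (fun i => ?_)
            (fun i hi => (hfin i hi).2)
          by_cases hi : i = 0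
          · rw [hi, hQ0, abs_neg, hP04]; norm_num
          · exact (hfin i hi).1
        · have h4 : 4 ≤ |P 0 + Q 0| := by
            have h5 : (4 : ℤ) ∣ P 0 + Q 0 := by
              rw [hp 0, hq 0]; exact ⟨p 0 + q 0, by ring⟩
            have h6 := Int.le_of_dvd (abs_pos.2 h0) ((dvd_abs _ _).2 h5)
            exact h6
          omega
    · -- P divisible by 4, Q not
      have hle : ∀ i, 24 * (2 * max |P i| |Q i|) ≤ 4 * P i ^ 2 + 5 * Q i ^ 2 + 108 := by
        intro i; rw [hp i, (hv i).1]; exact pAB _ _ (hv i).2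
      have hsum : 24 * ∑ i, 2 * max |P i| |Q i| ≤ 4032 := by
        calc 24 * ∑ i, 2 * max |P i| |Q i| = ∑ i, 24 * (2 * max |P i| |Q i|) := by
              rw [Finset.mul_sum]
          _ ≤ ∑ i, (4 * P i ^ 2 + 5 * Q i ^ 2 + 108) := Finset.sum_le_sum fun i _ => hle i
          _ = 4032 := by
            rw [Finset.sum_add_distrib, Finset.sum_add_distrib, ← Finset.mul_sum, ← Finset.mul_sum,
              hP, hQ]; simp
      have h2 : 2 ≤ |P 0 + Q 0| := by
        have h3 : P 0 + Q 0 ≠ 0 := by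
          rw [hp 0, (hv 0).1]
          have := (hv 0).2
          omega
        have h5 : (2 : ℤ) ∣ P 0 + Q 0 := by
          rw [hp 0, (hv 0).1]; exact ⟨2 * p 0 + v 0, by ring⟩
        exact Int.le_of_dvd (abs_pos.2 h3) ((dvd_abs _ _).2 h5)
      linarith
  · rcases dich Q hQ4 with ⟨q, hq⟩ | ⟨v, hv⟩
    · have hle : ∀ i, 24 * (2 * max |P i| |Q i|) ≤ 4 * Q i ^ 2 + 5 * P i ^ 2 + 108 := by
        intro i; rw [(hu i).1, hq i, max_comm]; exact pAB _ _ (hu i).2
      have hsum : 24 * ∑ i, 2 * max |P i| |Q i| ≤ 4032 := by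
        calc 24 * ∑ i, 2 * max |P i| |Q i| = ∑ i, 24 * (2 * max |P i| |Q i|) := by
              rw [Finset.mul_sum]
          _ ≤ ∑ i, (4 * Q i ^ 2 + 5 * P i ^ 2 + 108) := Finset.sum_le_sum fun i _ => hle i
          _ = 4032 := by
            rw [Finset.sum_add_distrib, Finset.sum_add_distrib, ← Finset.mul_sum, ← Finset.mul_sum,
              hP, hQ]; simp
      have h2 : 2 ≤ |P 0 + Q 0| := by
        have h3 : P 0 + Q 0 ≠ 0 := by
          rw [hq 0, (hu 0).1]
          have := (hu 0).2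
          omega
        have h5 : (2 : ℤ) ∣ P 0 + Q 0 := by
          rw [hq 0, (hu 0).1]; exact ⟨2 * q 0 + u 0, by ring⟩
        exact Int.le_of_dvd (abs_pos.2 h3) ((dvd_abs _ _).2 h5)
      linarith
    · have hle : ∀ i, 4 * (2 * max |P i| |Q i|) ≤ P i ^ 2 + Q i ^ 2 + 8 := by
        intro i; rw [(hu i).1, (hv i).1]; exact pBB _ _ (hu i).2 (hv i).2
      have hsum : 4 * ∑ i, 2 * max |P i| |Q i| ≤ 640 := by
        calc 4 * ∑ i, 2 * max |P i| |Q i| = ∑ i, 4 * (2 * max |P i| |Q i|) := by
              rw [Finset.mul_sum]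
          _ ≤ ∑ i, (P i ^ 2 + Q i ^ 2 + 8) := Finset.sum_le_sum fun i _ => hle i
          _ = 640 := by
            rw [Finset.sum_add_distrib, Finset.sum_add_distrib, hP, hQ]; simp
      have := abs_nonneg (P 0 + Q 0)
      linarith

/-! ### The Hadamard matrix of order 32 -/

/-- the block matrix `(A B; A -B)` -/
def K : Matrix (Fin 16 ⊕ Fin 16) (Fin 16 ⊕ Fin 16) ℤ :=
  Matrix.fromBlocks (sgn fA) (sgn fB) (sgn fA) (-sgn fB)

/-- the Hadamard matrix of order 32 -/
def H : Matrix (Fin 32) (Fin 32) ℤ :=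
  fun i j => K ((finSumFinEquiv (m := 16) (n := 16)).symm i) ((finSumFinEquiv (m := 16) (n := 16)).symm j)

theorem H_entries (i j : Fin 32) : H i j = 1 ∨ H i j = -1 := by
  have h : ∀ i j : Fin 32, H i j * H i j = 1 := by decide +kernel
  exact mul_self_eq_one_iff.1 (h i j)

theorem H_hadamard : IsHadamard H := by
  refine ⟨H_entries, ?_⟩
  have h : ∀ i k : Fin 32, ∑ j : Fin 32, H i j * H k j = if i = k then (32 : ℤ) else 0 := by
    decide +kernel
  ext i k
  rw [Matrix.mul_apply, Matrix.smul_apply, Matrix.one_apply]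
  simp only [Matrix.transpose_apply, h i k]
  split_ifs <;> simp

theorem upper (b : Fin 32 → ℤˣ) :
    ∑ i, |∑ j, H i j * (b j : ℤ)| - |∑ j, H 0 j * (b j : ℤ)| ≤ 166 := by
  set e := (finSumFinEquiv (m := 16) (n := 16)) with he
  set c : Fin 16 → ℤˣ := fun j => b (e (Sum.inl j)) with hc
  set d : Fin 16 → ℤˣ := fun j => b (e (Sum.inr j)) with hd
  have hj : ∀ i : Fin 32, ∑ j, H i j * (b j : ℤ) =
      ∑ j : Fin 16, K (e.symm i) (Sum.inl j) * (c j : ℤ) +
      ∑ j : Fin 16, K (e.symm i) (Sum.inr j) * (d j : ℤ) := by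
    intro i
    rw [← Equiv.sum_comp e, Fintype.sum_sum_type]
    simp only [H, ← he, Equiv.symm_apply_apply, hc, hd]
  have h1 : ∀ i : Fin 16, ∑ j, H (e (Sum.inl i)) j * (b j : ℤ) = P fA c i + P fB d i := by
    intro i
    rw [hj, Equiv.symm_apply_apply]; rfl
  have h2 : ∀ i : Fin 16, ∑ j, H (e (Sum.inr i)) j * (b j : ℤ) = P fA c i - P fB d i := by
    intro i
    rw [hj, Equiv.symm_apply_apply, sub_eq_add_neg]
    congr 1
    rw [P, ← Finset.sum_neg_distrib]
    refine Finset.sum_congr rfl fun j _ => ?_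
    simp [K, Matrix.fromBlocks]
  have h0 : (0 : Fin 32) = e (Sum.inl 0) := by rw [he]; rfl
  rw [← Equiv.sum_comp e, Fintype.sum_sum_type, h0]
  simp only [h1, h2]
  rw [← Finset.sum_add_distrib]
  exact main_ineq _ _ (sq_sum fA orthA c) (sq_sum fB orthB d) (mod_four fA fourA c)
    (mod_four fB fourB d) (fun a1 a2 a3 a4 => nobad c d a1 a2 a3 a4)

theorem C_zero : C H 0 ≤ 166 := by
  rw [C, Finset.sup'_le_iff]
  intro a _
  -- signs of the column sums
  set y : Fin 32 → ℤ := fun j => ∑ i : {i : Fin 32 // i ≠ 0}, H i j * (a i : ℤ) with hy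
  have hb : ∀ j, ∃ b : ℤˣ, |y j| = (b : ℤ) * y j := by
    intro j
    rcases abs_cases (y j) with ⟨h, -⟩ | ⟨h, -⟩
    · exact ⟨1, by rw [h]; simp⟩
    · exact ⟨-1, by rw [h]; simp⟩
  choose b hb using hb
  have h1 : ∑ j, |y j| = ∑ i : {i : Fin 32 // i ≠ 0}, (a i : ℤ) * ∑ j, H i j * (b j : ℤ) := by
    calc ∑ j, |y j| = ∑ j, ∑ i : {i : Fin 32 // i ≠ 0}, (a i : ℤ) * (H i j * (b j : ℤ)) := by
          refine Finset.sum_congr rfl fun j _ => ?_
          rw [hb j, hy, Finset.mul_sum]
          refine Finset.sum_congr rfl fun i _ => ?_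
          ring
      _ = _ := by
          rw [Finset.sum_comm]
          refine Finset.sum_congr rfl fun i _ => ?_
          rw [Finset.mul_sum]
  have h2 : ∑ i : {i : Fin 32 // i ≠ 0}, (a i : ℤ) * ∑ j, H i j * (b j : ℤ) ≤
      ∑ i : {i : Fin 32 // i ≠ 0}, |∑ j, H i j * (b j : ℤ)| := by
    refine Finset.sum_le_sum fun i _ => ?_
    calc (a i : ℤ) * ∑ j, H i j * (b j : ℤ) ≤ |(a i : ℤ) * ∑ j, H i j * (b j : ℤ)| := le_abs_self _
      _ = |∑ j, H i j * (b j : ℤ)| := by
          rw [abs_mul]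
          rcases Int.units_eq_one_or (a i) with h | h <;> rw [h] <;> simp
  have h3 : ∑ i : {i : Fin 32 // i ≠ 0}, |∑ j, H i j * (b j : ℤ)| =
      ∑ i, |∑ j, H i j * (b j : ℤ)| - |∑ j, H 0 j * (b j : ℤ)| := by
    have h4 : |∑ j, H 0 j * (b j : ℤ)| +
        ∑ i ∈ Finset.univ.erase (0 : Fin 32), |∑ j, H i j * (b j : ℤ)| =
        ∑ i, |∑ j, H i j * (b j : ℤ)| :=
      Finset.add_sum_erase Finset.univ (fun i : Fin 32 => |∑ j, H i j * (b j : ℤ)|)
        (Finset.mem_univ 0)
    have h5 : ∑ i : {i : Fin 32 // i ≠ 0}, |∑ j, H i j * (b j : ℤ)| =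
        ∑ i ∈ Finset.univ.erase (0 : Fin 32), |∑ j, H i j * (b j : ℤ)| := by
      rw [Finset.sum_subtype (Finset.univ.erase (0 : Fin 32)) (p := fun i => i ≠ 0)
        (fun i => by simp) (fun i => |∑ j, H i j * (b j : ℤ)|)]
    rw [h5]
    linarith
  calc ∑ j, |y j| ≤ ∑ i, |∑ j, H i j * (b j : ℤ)| - |∑ j, H 0 j * (b j : ℤ)| := by
        rw [h1, ← h3]; exact h2
    _ ≤ 166 := upper b

/-- the sign vector for the second row -/
def wit (i : Fin 32) : ℤˣ :=
  if i ∈ [(3 : Fin 32), 4, 5, 8, 11, 12, 13, 15, 18, 24, 29, 31] then -1 else 1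

theorem C_one : 168 ≤ C H 1 := by
  have h1 : ∑ j, |∑ i ∈ Finset.univ.erase (1 : Fin 32), H i j * (wit i : ℤ)| = 168 := by
    decide +kernel
  have h2 : ∑ j, |∑ i : {i : Fin 32 // i ≠ 1}, H i j * ((wit i : ℤˣ) : ℤ)| = 168 := by
    rw [← h1]
    refine Finset.sum_congr rfl fun j _ => ?_
    have h3 : ∑ i : {i : Fin 32 // i ≠ 1}, H i j * ((wit i : ℤˣ) : ℤ) =
        ∑ i ∈ Finset.univ.erase (1 : Fin 32), H i j * (wit i : ℤ) := by
      rw [Finset.sum_subtype (Finset.univ.erase (1 : Fin 32)) (p := fun i => i ≠ 1)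
        (fun i => by simp) (fun i => H i j * (wit i : ℤ))]
    rw [h3]
  rw [C, ← h2]
  exact Finset.le_sup' (fun a : {i : Fin 32 // i ≠ 1} → ℤˣ =>
    ∑ j, |∑ i : {i : Fin 32 // i ≠ 1}, H i j * (a i : ℤ)|)
    (Finset.mem_univ (fun i : {i : Fin 32 // i ≠ 1} => wit i))

/-- There are a real Hadamard matrix `H` of order 32 and two rows `r`, `s` of `H` with
`C(H, r) ≤ 166` and `168 ≤ C(H, s)`; in particular `C(H, r)` depends on the row `r`. -/
theorem result : ∃ H : Matrix (Fin 32) (Fin 32) ℤ, IsHadamard H ∧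
    ∃ r s : Fin 32, C H r ≤ 166 ∧ 168 ≤ C H s :=
  ⟨H, H_hadamard, 0, 1, C_zero, C_one⟩

end Pool.Agent.Results.MP_ba6bee_co.OrderThirtyTwo
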